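import Mathlib
import Pool.Agent.Lib.MP_6152be_co.CX.Shift

set_option autoImplicit false

namespace Pool.Agent.Results.MP_6152be_co.Counterexample

open Pool.Agent.Lib.MP_6152be_co

/-- There are two ordered sets with the connected fixed point property whose product has an
order-preserving self-map without any fixed point. -/
theorem result : ∃ (P Q : Type) (_ : PartialOrder P) (_ : PartialOrder Q),
    CFPP P ∧ CFPP Q ∧ ∃ f : P × Q → P × Q, Monotone f ∧ ∀ x, f x ≠ x :=
  ⟨CX.P1, CX.Q1, inferInstance, inferInstance, CX.cfpp_dat CX.hyp_P, CX.cfpp_dat CX.hyp_Q,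
    CX.gmap, CX.gmap_mono, CX.gmap_ne⟩

end Pool.Agent.Results.MP_6152be_co.Counterexample
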