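import Mathlib
import Pool.Agent.Lib.MP_6152be_co.Main

set_option autoImplicit false

namespace Pool.Agent.Results.MP_6152be_co.FiniteProduct

open Pool.Agent.Lib.MP_6152be_co

/-- The product of two finite ordered sets with the connected fixed point property has the
connected fixed point property. -/
theorem result {P Q : Type*} [PartialOrder P] [PartialOrder Q] [Finite P] [Finite Q]
    (hP : CFPP P) (hQ : CFPP Q) : CFPP (P × Q) :=
  cfpp_prod hP hQ

end Pool.Agent.Results.MP_6152be_co.FiniteProduct
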